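import Mathlib

/-!
# `(r,r)`-guaranteed does not imply `(r+1,r+1)`-guaranteed

For the binary alphabet, `n = 8` and `r = 3` there is a set `B` of 46 words that is
`(3,3)`-guaranteed but not `(4,4)`-guaranteed.
-/

namespace Pool.Agent.Results.MP_a407c4_co.GuaranteedNotMonotone

section Defs

variable {α : Type}

/-- `t` arises from `s` by one insertion, deletion or substitution of a character. -/
inductive Edit1 : List α → List α → Prop
  | ins (l r : List α) (a : α) : Edit1 (l ++ r) (l ++ a :: r)
  | del (l r : List α) (a : α) : Edit1 (l ++ a :: r) (l ++ r)
  | sub (l r : List α) (a b : α) : Edit1 (l ++ a :: r) (l ++ b :: r)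

/-- `s` can be turned into `t` by exactly `k` single-character edits. -/
inductive Edits : ℕ → List α → List α → Prop
  | refl (s : List α) : Edits 0 s s
  | step {k : ℕ} {s t u : List α} : Edit1 s t → Edits k t u → Edits (k + 1) s u

/-- The edit distance. -/
noncomputable def edit (s t : List α) : ℕ := sInf {k | Edits k s t}

/-- The words of length `n` at edit distance at most `r` from `s`. -/
def N (n r : ℕ) (s : List α) : Set (List α) := {v | v.length = n ∧ edit s v ≤ r}

/-- `(d, r)`-guaranteed sets of words of length `n`. -/
def Guaranteed (n d r : ℕ) (B : Set (List α)) : Prop :=
  ∀ s t : List α, s.length = n → t.length = n → edit s t ≤ d → (N n r s ∩ N n r t ∩ B).Nonempty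

end Defs

section Lev

variable {α : Type} [DecidableEq α]

/-- The Wagner–Fischer recursion. -/
def lev : List α → List α → ℕ
  | [], ys => ys.length
  | x :: xs, [] => xs.length + 1
  | x :: xs, y :: ys =>
    min (lev xs (y :: ys) + 1) (min (lev (x :: xs) ys + 1) (lev xs ys + if x = y then 0 else 1))
termination_by xs ys => xs.length + ys.length

lemma lev_nil (ys : List α) : lev [] ys = ys.length := by rw [lev]

lemma lev_nil' (xs : List α) : lev xs [] = xs.length := by
  cases xs with
  | nil => rw [lev]
  | cons x xs => rw [lev, List.length_cons]

lemma lev_cons (x y : α) (xs ys : List α) : lev (x :: xs) (y :: ys) =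
    min (lev xs (y :: ys) + 1) (min (lev (x :: xs) ys + 1) (lev xs ys + if x = y then 0 else 1)) := by
  rw [lev]

lemma L2 (x : α) (xs ys : List α) : lev (x :: xs) ys ≤ lev xs ys + 1 := by
  cases ys with
  | nil => rw [lev_nil', lev_nil', List.length_cons]
  | cons y ys => rw [lev_cons]; exact min_le_left _ _

lemma L3 (y : α) (xs ys : List α) : lev xs (y :: ys) ≤ lev xs ys + 1 := by
  cases xs with
  | nil => rw [lev_nil, lev_nil, List.length_cons]
  | cons x xs => rw [lev_cons]; exact (min_le_right _ _).trans (min_le_left _ _)

lemma L1 (x : α) (xs ys : List α) : lev xs ys ≤ lev (x :: xs) ys + 1 := by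
  induction ys with
  | nil => rw [lev_nil', lev_nil', List.length_cons]; omega
  | cons y ys ih =>
    have h := L3 y xs ys
    rw [lev_cons x y xs ys]
    split_ifs <;> omega

lemma L4 (y : α) (xs ys : List α) : lev xs ys ≤ lev xs (y :: ys) + 1 := by
  induction xs with
  | nil => rw [lev_nil, lev_nil, List.length_cons]; omega
  | cons x xs ih =>
    have h := L2 x xs ys
    rw [lev_cons x y xs ys]
    split_ifs <;> omega

lemma lev_cons_self (x : α) (xs ys : List α) : lev (x :: xs) (x :: ys) = lev xs ys := by
  have h1 := L1 x xs ys
  have h2 := L4 x xs ys
  rw [lev_cons, if_pos rfl]
  omega

lemma lev_cons_ne {x y : α} (h : x ≠ y) (xs ys : List α) : lev (x :: xs) (y :: ys) =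
    min (lev xs (y :: ys)) (min (lev (x :: xs) ys) (lev xs ys)) + 1 := by
  rw [lev_cons, if_neg h]
  omega

lemma lev_self (xs : List α) : lev xs xs = 0 := by
  induction xs with
  | nil => rw [lev_nil]; rfl
  | cons x xs ih => rw [lev_cons_self, ih]

lemma lip_cons {u v : List α} (h : ∀ w, lev u w ≤ lev v w + 1) (c : α) (w : List α) :
    lev (c :: u) w ≤ lev (c :: v) w + 1 := by
  induction w with
  | nil =>
    have := h []
    rw [lev_nil', lev_nil'] at this ⊢
    simp only [List.length_cons]
    omega
  | cons d w ih =>
    have h1 := h (d :: w)
    have h2 := h w
    rw [lev_cons c d u w, lev_cons c d v w]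
    split_ifs <;> omega

lemma lip_append {u v : List α} (h : ∀ w, lev u w ≤ lev v w + 1) (l w : List α) :
    lev (l ++ u) w ≤ lev (l ++ v) w + 1 := by
  induction l generalizing w with
  | nil => exact h w
  | cons c l ih => exact lip_cons ih c w

lemma lip_sub (a b : α) (r w : List α) : lev (a :: r) w ≤ lev (b :: r) w + 1 := by
  induction w with
  | nil => simp only [lev_nil', List.length_cons]; omega
  | cons d w ih =>
    rw [lev_cons a d r w, lev_cons b d r w]
    split_ifs <;> omega

lemma lev_le_of_edit1 {s t : List α} (h : Edit1 s t) (w : List α) : lev s w ≤ lev t w + 1 := by
  cases h with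
  | ins l r a => exact lip_append (fun w => L1 a r w) l w
  | del l r a => exact lip_append (fun w => L2 a r w) l w
  | sub l r a b => exact lip_append (fun w => lip_sub a b r w) l w

lemma lev_le_of_edits {k : ℕ} {s t : List α} (h : Edits k s t) : lev s t ≤ k := by
  induction h with
  | refl s => rw [lev_self]
  | step h1 _ ih => have := lev_le_of_edit1 h1 ‹_›; omega

omit [DecidableEq α] in
lemma Edit1.cons {s t : List α} (h : Edit1 s t) (c : α) : Edit1 (c :: s) (c :: t) := by
  cases h with
  | ins l r a => exact Edit1.ins (c :: l) r a
  | del l r a => exact Edit1.del (c :: l) r a
  | sub l r a b => exact Edit1.sub (c :: l) r a b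

omit [DecidableEq α] in
lemma Edits.cons {k : ℕ} {s t : List α} (h : Edits k s t) (c : α) : Edits k (c :: s) (c :: t) := by
  induction h with
  | refl s => exact Edits.refl _
  | step h1 _ ih => exact Edits.step (h1.cons c) ih

omit [DecidableEq α] in
lemma Edits.trans {j k : ℕ} {s t u : List α} (h : Edits j s t) (h' : Edits k t u) :
    Edits (j + k) s u := by
  induction h with
  | refl s => rwa [Nat.zero_add]
  | step h1 _ ih =>
    rw [Nat.add_right_comm]
    exact Edits.step h1 (ih h')

omit [DecidableEq α] in
lemma Edits.snoc {j : ℕ} {s t u : List α} (h : Edits j s t) (h' : Edit1 t u) :
    Edits (j + 1) s u := h.trans (Edits.step h' (Edits.refl _))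

omit [DecidableEq α] in
lemma edits_nil (ys : List α) : Edits ys.length [] ys := by
  induction ys with
  | nil => exact Edits.refl _
  | cons y ys ih => exact ih.snoc (Edit1.ins [] ys y)

omit [DecidableEq α] in
lemma edits_nil' (xs : List α) : Edits xs.length xs [] := by
  induction xs with
  | nil => exact Edits.refl _
  | cons x xs ih => exact Edits.step (Edit1.del [] xs x) ih

lemma edits_lev (xs ys : List α) : Edits (lev xs ys) xs ys := by
  induction xs generalizing ys with
  | nil => rw [lev_nil]; exact edits_nil ys
  | cons x xs ih =>
    induction ys with
    | nil => rw [lev_nil']; exact edits_nil' _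
    | cons y ys ih' =>
      rw [lev_cons]
      rcases min_choice (lev xs (y :: ys) + 1)
        (min (lev (x :: xs) ys + 1) (lev xs ys + if x = y then 0 else 1)) with h | h
      · rw [h]
        exact Edits.step (Edit1.del [] xs x) (ih (y :: ys))
      · rw [h]
        rcases min_choice (lev (x :: xs) ys + 1) (lev xs ys + if x = y then 0 else 1) with h' | h'
        · rw [h']
          exact ih'.snoc (Edit1.ins [] ys y)
        · rw [h']
          by_cases hxy : x = y
          · subst hxy
            rw [if_pos rfl, Nat.add_zero]
            exact (ih ys).cons x
          · rw [if_neg hxy]
            exact ((ih ys).cons x).snoc (Edit1.sub [] ys x y)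

lemma edit_eq_lev (xs ys : List α) : edit xs ys = lev xs ys := by
  apply le_antisymm
  · exact Nat.sInf_le (edits_lev xs ys)
  · exact lev_le_of_edits (Nat.sInf_mem (s := {k | Edits k xs ys}) ⟨_, edits_lev xs ys⟩)

end Lev

/-- Remove the common beginning of two words. -/
def strip : List Bool → List Bool → List Bool × List Bool
  | x :: xs, y :: ys => if x = y then strip xs ys else (x :: xs, y :: ys)
  | [], ys => ([], ys)
  | x :: xs, [] => (x :: xs, [])

lemma lev_strip (xs ys : List Bool) : lev (strip xs ys).1 (strip xs ys).2 = lev xs ys := by
  induction xs generalizing ys with
  | nil => cases ys <;> rfl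
  | cons x xs ih =>
    cases ys with
    | nil => rfl
    | cons y ys =>
      rw [strip]
      split_ifs with h
      · subst h
        rw [ih, lev_cons_self]
      · rfl

lemma strip_ne (xs ys : List Bool) (a b : Bool) (l m : List Bool)
    (h : strip xs ys = (a :: l, b :: m)) : a ≠ b := by
  induction xs generalizing ys with
  | nil => cases ys <;> simp [strip] at h
  | cons x xs ih =>
    cases ys with
    | nil => simp [strip] at h
    | cons y ys =>
      rw [strip] at h
      split_ifs at h with hxy
      · exact ih ys h
      · simp only [Prod.mk.injEq, List.cons.injEq] at h
        rw [← h.1.1, ← h.2.1]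
        exact hxy

/-- A decision procedure for `lev xs ys ≤ k`. -/
def f : ℕ → List Bool → List Bool → Bool
  | 0, xs, ys => xs == ys
  | k + 1, xs, ys =>
    match strip xs ys with
    | ([], m) => m.length ≤ k + 1
    | (a :: l, []) => l.length ≤ k
    | (a :: l, b :: m) => f k l m || f k (a :: l) m || f k l (b :: m)

lemma lev_zero {xs ys : List Bool} : lev xs ys ≤ 0 ↔ xs = ys := by
  constructor
  · intro h
    have h1 := edits_lev xs ys
    rw [Nat.le_zero.mp h] at h1
    cases h1
    rfl
  · rintro rfl
    rw [lev_self]

lemma f_iff (k : ℕ) (xs ys : List Bool) : f k xs ys = true ↔ lev xs ys ≤ k := by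
  induction k generalizing xs ys with
  | zero => rw [f, lev_zero, beq_iff_eq]
  | succ k ih =>
    rw [f, ← lev_strip xs ys]
    have hne := strip_ne xs ys
    generalize strip xs ys = p at hne ⊢
    rcases p with ⟨_ | ⟨a, l⟩, _ | ⟨b, m⟩⟩
    · simp [lev_nil]
    · simp [lev_nil]
    · simp [lev_nil']
    · simp only [Bool.or_eq_true, ih]
      rw [lev_cons_ne (hne a b l m rfl)]
      omega

/-- All words of length `n`. -/
def words : ℕ → List (List Bool)
  | 0 => [[]]
  | n + 1 => (words n).map (true :: ·) ++ (words n).map (false :: ·)

lemma mem_words (n : ℕ) (u : List Bool) (h : u.length = n) : u ∈ words n := by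
  induction n generalizing u with
  | zero =>
    rw [List.length_eq_zero_iff] at h
    subst h
    exact List.mem_singleton.mpr rfl
  | succ n ih =>
    cases u with
    | nil => simp at h
    | cons b u =>
      rw [List.length_cons, Nat.add_right_cancel_iff] at h
      rw [words, List.mem_append]
      cases b
      · right; exact List.mem_map.mpr ⟨u, ih u h, rfl⟩
      · left; exact List.mem_map.mpr ⟨u, ih u h, rfl⟩

/-- The set `B`. -/
def Bl : List (List Bool) :=
  [[true, true, true, true, true, true, true, false],
   [true, true, true, true, true, true, false, true],
   [true, true, true, true, true, true, false, false],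
   [true, true, true, true, true, false, false, false],
   [true, true, true, true, false, true, false, false],
   [true, true, true, false, true, true, false, false],
   [true, true, true, false, true, false, false, false],
   [true, true, true, false, false, false, false, false],
   [true, true, false, true, true, true, true, false],
   [true, true, false, true, true, true, false, false],
   [true, true, false, true, false, true, false, false],
   [true, true, false, true, false, false, false, false],
   [true, true, false, false, true, false, false, false],
   [true, true, false, false, false, true, false, false],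
   [true, true, false, false, false, false, true, false],
   [true, true, false, false, false, false, false, true],
   [true, true, false, false, false, false, false, false],
   [true, false, true, true, true, true, true, true],
   [true, false, true, true, true, true, false, false],
   [true, false, false, false, true, true, true, false],
   [true, false, false, false, false, true, false, false],
   [true, false, false, false, false, false, true, true],
   [true, false, false, false, false, false, false, false],
   [false, true, true, true, true, true, true, true],
   [false, true, true, true, true, true, false, false],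
   [false, true, true, true, true, false, true, true],
   [false, true, true, true, false, false, false, true],
   [false, true, false, false, false, false, true, true],
   [false, true, false, false, false, false, false, false],
   [false, false, true, true, true, true, true, true],
   [false, false, true, true, true, true, true, false],
   [false, false, true, true, true, true, false, true],
   [false, false, true, true, true, false, true, true],
   [false, false, true, true, false, true, true, true],
   [false, false, true, false, true, true, true, true],
   [false, false, true, false, true, false, true, true],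
   [false, false, true, false, false, false, true, true],
   [false, false, true, false, false, false, false, true],
   [false, false, false, true, true, true, true, true],
   [false, false, false, true, false, true, true, true],
   [false, false, false, true, false, false, true, true],
   [false, false, false, false, true, false, true, true],
   [false, false, false, false, false, true, true, true],
   [false, false, false, false, false, false, true, true],
   [false, false, false, false, false, false, true, false],
   [false, false, false, false, false, false, false, true]]

/-- The bit mask of the words of a list at distance at most 3 from `u`. -/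
def maskOf (u : List Bool) (B : List (List Bool)) : ℕ :=
  B.foldr (fun w acc => 2 * acc + cond (f 3 u w) 1 0) 0

lemma mask_and (u v : List Bool) (B : List (List Bool)) (h : maskOf u B &&& maskOf v B ≠ 0) :
    ∃ w ∈ B, f 3 u w = true ∧ f 3 v w = true := by
  induction B with
  | nil => simp [maskOf] at h
  | cons w B ih =>
    by_cases hw : f 3 u w = true ∧ f 3 v w = true
    · exact ⟨w, List.mem_cons_self, hw⟩
    · obtain ⟨i, hi⟩ := Nat.exists_testBit_of_ne_zero h
      rw [Nat.testBit_land, Bool.and_eq_true] at hi
      obtain ⟨w', hw', hw2⟩ := ih (by
        intro h0
        cases i with
        | zero =>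
          apply hw
          have e : ∀ z : List Bool, maskOf z (w :: B) = 2 * maskOf z B + cond (f 3 z w) 1 0 :=
            fun _ => rfl
          rw [e u, e v] at hi
          simp only [Nat.testBit_zero, decide_eq_true_eq] at hi
          constructor
          · by_contra hc
            rw [Bool.not_eq_true] at hc
            rw [hc] at hi
            simp only [cond_false] at hi
            omega
          · by_contra hc
            rw [Bool.not_eq_true] at hc
            rw [hc] at hi
            simp only [cond_false] at hi
            omega
        | succ i =>
          have e : ∀ z : List Bool, (maskOf z (w :: B)).testBit (i + 1) = (maskOf z B).testBit i := by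
            intro z
            have e : maskOf z (w :: B) = 2 * maskOf z B + cond (f 3 z w) 1 0 := rfl
            rw [e, Nat.testBit_succ]
            congr 1
            cases f 3 z w <;> simp <;> omega
          rw [e u, e v] at hi
          have := Nat.testBit_land (maskOf u B) (maskOf v B) i
          rw [h0, hi.1, hi.2] at this
          simp at this)
      exact ⟨w', List.mem_cons_of_mem _ hw', hw2⟩

/-- The masks of all words of length 8. -/
def masks : List ℕ :=
  [308759888703, 1670252415, 3884320639, 3246800895, 41465283455, 7575330815, 6568714239,
   117776383, 563286770999, 14017785855, 15158652927, 118833151, 1181361555675, 117800959,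
   137556778750, 356908799, 60709012327, 26869659647, 28043556863, 18694143, 2332412794363,
   34478063615, 171916525310, 356908799, 4492781871539, 102334455, 137540795638, 357957375,
   9036848294080, 17661382753529, 35391006702842, 137779870972, 858499450631, 295305117503,
   298559913791, 18694015, 3638015745851, 51216255, 117833598, 356909055, 6382500376371,
   584151039863, 584217395062, 290848767, 10548676787520, 18692107796473, 36490518331130,
   137779871740, 7439028777763, 1931111, 1701734, 291373055, 12747633456448, 19791619948537,
   38620823158522, 274333692, 16011776091392, 22059362680753, 41988078042802, 274333684,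
   69475868735616, 26526195776960, 61710567341248, 52776968257272, 892875964679, 308760412991,
   308827521855, 3877504895, 3710426415899, 42531161983, 178895849342, 7604674559, 6459138900275,
   600810850167, 737225869174, 11833589759, 10699537514496, 18774383557625, 36505282599642,
   137780133628, 7558650528547, 613662197607, 754339153766, 20424048639, 12915674056000,
   19916845383673, 38747256585978, 172140396284, 17309393092864, 23219809451953, 43149598588082,
   137713549044, 69540024871040, 26629274991808, 61813646556352, 52983126949112, 8589442679555,
   858475333383, 892851848966, 282417053503, 13056334233856, 21216072990521, 39013410848298,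
   137780608892, 17454348240128, 26176894435121, 43978460167698, 721829068660, 70364591478784,
   28278475324736, 63462913989696, 54082504359640, 17385628762368, 25034433131297, 43729352061474,
   274560868, 70227152531456, 30271340148032, 65593151190080, 56075369709288, 70222857560064,
   34703746393344, 70059917173760, 59374038810288, 70059917164544, 69475801626752, 69475801102464,
   61710366538944, 892942287111, 308759888703, 308826997567, 3884320639, 3710575312923,
   42539026303, 179977978494, 7910727423, 6459354120243, 600884774263, 738323727478, 16500670207,
   10701691289600, 18777052047609, 36505603328218, 137825221884, 7558798639907, 613703092071,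
   755503597414, 29385572351, 12917894415680, 19928103288825, 38756166196474, 172184960764,
   17313793966336, 23224490948529, 43154212451506, 137792716532, 69540329349248, 26629301730496,
   61813674866880, 52983208475896, 8589591053059, 892875966215, 892943075078, 299969036095,
   13056407109888, 21233773862713, 39031044087338, 137825165180, 17454454146304, 26250228559665,
   43978846154258, 721908219764, 70364963063808, 28278569139520, 63462942301248, 54082720104152,
   17454387036416, 25112028672801, 43944419308066, 287127396, 70364895956992, 30477525808448,
   65661966611520, 56213023882984, 70360567963648, 34875540858112, 70059980088320, 59580211658416,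
   70060013633536, 69475868735616, 69475868211328, 61710567341248, 8658176311299, 892875964679,
   1030382027014, 308827521855, 13193711845376, 21302627664665, 39032252137994, 179969458780,
   17591758356480, 26250362880305, 43980054462482, 738282702452, 70368452804608, 28294808338432,
   63478240903168, 54098691098840, 17591691772160, 26250329326369, 43979987353634, 755395987044,
   70368385695744, 30510945928256, 65694445077568, 56340665081064, 70368352665600, 34909095198720,
   70092460130304, 60742939458736, 70090345152512, 69541366360192, 69542439078016, 61813644458176,
   17385533341952, 26181609849601, 43773829448194, 849885267716, 70230947266560, 30579665404160,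
   65969189289984, 56495284427272, 70230913712128, 35046534153472, 70367338562560, 61481674358288,
   70365223059456, 70348753623040, 70349892917248, 63428417887232, 70230913712128, 35042239185152,
   70367271452672, 60218953970208, 70365157523456, 70357343563776, 70358416797696, 65043259011136,
   70360829001728, 70361638526976, 70362711777280, 70025557402624, 70364858204160, 70059917164544,
   70059983732736, 69475801102464]

lemma check1 : (words 8).map (fun u => maskOf u Bl) = masks := by
  decide +kernel

/-- The test for two words. -/
def pairOK (p q : List Bool × ℕ) : Bool := (p.2 &&& q.2 != 0) || !(f 3 p.1 q.1)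

lemma check2 : ((words 8).zip masks).all
    (fun p => ((words 8).zip masks).all (fun q => pairOK p q)) = true := by
  decide +kernel

/-- The two words violating the `(4,4)`-condition. -/
def s8 : List Bool := [true, true, false, false, true, true, false, false]

/-- The two words violating the `(4,4)`-condition. -/
def t8 : List Bool := [false, false, true, true, false, false, true, true]

lemma check3 : f 4 s8 t8 = true ∧
    Bl.all (fun w => !(f 4 s8 w && f 4 t8 w) && w.length == 8) = true := by
  decide +kernel

lemma mem_zip_map {β γ : Type} (g : β → γ) (l : List β) {x : β} (hx : x ∈ l) :
    (x, g x) ∈ l.zip (l.map g) := by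
  induction l with
  | nil => simp at hx
  | cons y l ih =>
    rw [List.map_cons, List.zip_cons_cons]
    rcases List.mem_cons.mp hx with rfl | h
    · exact List.mem_cons_self
    · exact List.mem_cons_of_mem _ (ih h)

/-- **Monotonicity fails.**  For the binary alphabet there is a set of words of length 8 that is
`(3,3)`-guaranteed but not `(4,4)`-guaranteed. -/
theorem result : ¬ ∀ (α : Type) (_ : Fintype α), 1 < Fintype.card α → ∀ n r : ℕ, 1 ≤ n → 1 ≤ r →
    ∀ B : Set (List α), (∀ v ∈ B, v.length = n) →
      Guaranteed n r r B → Guaranteed n (r + 1) (r + 1) B := by
  intro h
  have hlen : ∀ v ∈ {v : List Bool | v ∈ Bl}, v.length = 8 := by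
    intro v hv
    have := List.all_eq_true.mp check3.2 v hv
    simp only [Bool.and_eq_true, beq_iff_eq] at this
    exact this.2
  have h3 : Guaranteed 8 3 3 {v : List Bool | v ∈ Bl} := by
    intro s t hs ht hst
    rw [edit_eq_lev, ← f_iff] at hst
    have h1 := List.all_eq_true.mp check2 (s, maskOf s Bl)
      (by rw [← check1]; exact mem_zip_map _ _ (mem_words 8 s hs))
    have h2 := List.all_eq_true.mp h1 (t, maskOf t Bl)
      (by rw [← check1]; exact mem_zip_map _ _ (mem_words 8 t ht))
    rw [pairOK, hst, Bool.not_true, Bool.or_false, bne_iff_ne] at h2
    obtain ⟨w, hw, hw1, hw2⟩ := mask_and s t Bl h2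
    rw [f_iff] at hw1 hw2
    exact ⟨w, ⟨⟨hlen w hw, by rw [edit_eq_lev]; exact hw1⟩,
      ⟨hlen w hw, by rw [edit_eq_lev]; exact hw2⟩⟩, hw⟩
  obtain ⟨w, ⟨⟨_, hw1⟩, ⟨_, hw2⟩⟩, hw⟩ := h Bool inferInstance (by decide) 8 3 (by norm_num)
    (by norm_num) {v : List Bool | v ∈ Bl} hlen h3 s8 t8 rfl rfl
    (by rw [edit_eq_lev, ← f_iff]; exact check3.1)
  rw [edit_eq_lev, ← f_iff] at hw1 hw2
  have := List.all_eq_true.mp check3.2 w hw
  rw [hw1, hw2] at this
  simp at this

end Pool.Agent.Results.MP_a407c4_co.GuaranteedNotMonotone
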